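import Pool.Agent.H60.ALT.Nz1

/-!
# The heights of the natural labels from the near heights of the base, two windows

`nzq_few2`: as `nzq_few`, the natural labels of the window `a` and the heights of the base at a later
window `a'`.
-/

set_option autoImplicit false

namespace Pool.PSQ78

open Finset Real MvPolynomial
open Pool.Agent.H49.Ent Pool.Agent.H32.Dense Pool.STK Pool.KA Pool.KSAT Pool.K2S Pool.PB Pool.S6C
  Pool.GEN Pool.RCD Pool.LA91 Pool.OWN68 Pool.PKG Pool.ALT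
open Pool.UNJ (ceI)
open Pool.GRD (LbP)

variable {m : ℕ}

/-- **The heights of the natural labels from the near heights of the base**: the labels of the window
`a`, the near heights at the window `a'`. -/
theorem nzq_few2 {S : PCl m} {C₀ : ℝ} (htm : TmC S C₀)
    (hpos : ∀ (τ : ℝ) (J : ℕ) (F : Fam m J) (A : F.Ω → Prop), S.St τ J F A → 0 < Pe F.p A)
    {Ψ : Fml m} {c : ℕ → Fin m} {r : ℕ} {κ : Fin m} {K K₁ Ku Kb : ℕ}
    {w v p₁ p₂ eN uN pN a a' pa₁ pa₂ ea ua pa s : ℝ}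
    (hΨd : ∀ (J : ℕ) (F : Fam m J) (A : F.Ω → Prop) (V : Type) (z : PtT F → V) (z' : LnT F → V)
      (G : V → MvPolynomial (Option (Fin m)) ℝ), Ψ J F A V z z' G →
      (∀ y, (G y).totalDegree ≤ K) ∧ (∀ y, DpI ((range (r + 1)).image c) (G y)) ∧
      ∀ ω, A ω → z (ptr F J ω) = z' (slam F ⌊w * J⌋₊ ω))
    (hwv : w ≤ v) (hva : v ≤ a) (haa : a ≤ a') (ha' : a' ≤ 1) (hr1 : 1 ≤ r) (hs : s ≤ pa)
    {b₀ : ℕ} {u₀ u₁ p₀ σ₀ pm : ℝ} {so rd lv : ℕ → ℝ} {wv pv Nv : ℕ → ℕ → ℝ}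
    (hch : Chn S c b₀ r a' u₀ u₁ so rd)
    (hwv' : ∀ i, b₀ ≤ i → i < r → ∀ j' ≤ 0, wv i j' ≤ a')
    (hu0 : u₀ < p₀) (hp0 : p₀ ≤ 1) (hσ₀ : 0 < σ₀)
    (hlv : ∀ i, b₀ ≤ i → i < r → 0 < lv i)
    (h1 : ∀ i, b₀ ≤ i → i < r → so i + lv i + σ₀ ≤ Nv i 0)
    (h2 : ∀ i, b₀ ≤ i → i < r → so i + lv i + σ₀ ≤ min (pv i 0) (so i) + (p₀ - u₀))
    (h2' : ∀ i, b₀ ≤ i → i < r → ∀ l, b₀ ≤ l → l < i →
      so i + lv i + σ₀ ≤ min (pv i 0) (so i) + lv l)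
    (hm1 : pm ≤ pN) (hm2 : pm ≤ pa) (hm3 : σ₀ ≤ pm)
    (h3 : s + σ₀ ≤ pm + (p₀ - u₀))
    (h3' : ∀ l, b₀ ≤ l → l < r → s + σ₀ ≤ pm + lv l)
    {α γ : ∀ J : ℕ, Fam m J → Type} {f : ∀ (J : ℕ) (F : Fam m J), F.Ω → α J F}
    {y : ∀ (J : ℕ) (F : Fam m J), F.Ω → γ J F}
    (hf : ∀ (J : ℕ) (F : Fam m J), ∃ φ : α J F → PtT F, ∀ ω, ptr F J ω = φ (f J F ω))
    (hy : Kn0 ((range b₀).image c) p₀ y) {δ : ℝ} (hδ : 0 < δ) (K₀ : ℕ) :
    Bas S (fun J F A => ∀ (V : Type) (z : PtT F → V) (z' : LnT F → V)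
      (G : V → MvPolynomial (Option (Fin m)) ℝ),
      NzQ Ψ c r κ K K₁ Ku Kb w v p₁ p₂ eN uN pN a pa₁ pa₂ ea ua pa J F A V z z' G →
      ∀ uu : F.Ω → ℕ → ℕ → ℤ, (qJets m c b₀ r 0 wv pv Nv).P K₀ (σ₀ / 8) J F A uu →
      ∃ (V₁ : Type) (z₁ : F.Ω → V₁), Cl2 (f J F) (vg a' J F) A z₁ ∧
        CH (Pool.Agent.H49.Ent.cond F.p A True)
          (fun ω => ⌊(2 : ℝ) ^ (s * J) * ojet F κ 0 (G (z' (slam F ⌊v * J⌋₊ ω))) ω⌋)
          (fun ω => (uu ω, (z₁ ω, y J F ω))) ≤ δ * J) := by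
  classical
  have ha : a ≤ 1 := haa.trans ha'
  have hl2 : 0 < Real.log 2 := Real.log_pos one_lt_two
  obtain ⟨Kd, hKd⟩ : ∃ Kd : ℕ, Kd = max 1 (max K K₁ * max 1 (max Ku Kb)) := ⟨_, rfl⟩
  obtain ⟨M, hM⟩ : ∃ M : ℕ, M = ⌈|s|⌉₊ + 4 := ⟨_, rfl⟩
  have hMs : |s| + 4 ≤ M := by
    rw [hM]
    push_cast
    linarith [Nat.le_ceil |s|]
  obtain ⟨KK, hKK⟩ : ∃ KK : ℕ, KK = max K₀ (max Kd M) := ⟨_, rfl⟩
  have H1 := hgt_F1 htm hch (k := c 0) (w₁ := a) (w₂ := a) (p₁ := pm) (p₂ := pm) (N₁ := s)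
    (N₂ := s) hwv' haa haa hu0 hp0 hσ₀ hlv h1 h2 h2' le_rfl (by rw [min_self]; exact h3)
    (fun l b c => by rw [min_self]; exact h3' l b c) hf hy (h := δ / 2) (by linarith) KK
  obtain ⟨J₁, hJ₁⟩ := exists_nat_ge (Real.log 4 / (σ₀ / 8 * Real.log 2))
  obtain ⟨J₂, hJ₂⟩ := exists_nat_ge (Real.log 13 / (δ / 2))
  refine Bas.mono (J₁ + J₂ + 1) (H1.and (pos_bas hpos)) ?_
  rintro J hJ F A ⟨H1, hA⟩ V z z' G hG uu huu
  have hJ0 : (0 : ℝ) ≤ J := Nat.cast_nonneg J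
  have hJ1 : (1 : ℝ) ≤ J := by exact_mod_cast (by omega : 1 ≤ J)
  have j1 : Real.log 4 ≤ σ₀ / 8 * Real.log 2 * J := by
    have e1 : (J₁ : ℝ) ≤ J := by exact_mod_cast (by omega : J₁ ≤ J)
    have e2 := hJ₁.trans e1
    rw [div_le_iff₀ (by positivity)] at e2
    linarith
  have j2 : Real.log 13 ≤ δ / 2 * J := by
    have e1 : (J₂ : ℝ) ≤ J := by exact_mod_cast (by omega : J₂ ≤ J)
    have e2 := hJ₂.trans e1
    rw [div_le_iff₀ (by positivity)] at e2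
    linarith
  have hq := isLaw_cond F.isLaw hA
  obtain ⟨V₀, V₁, V₂, z₀, z₀', G₀, P₁, z₁, z₁', G₁, P₂, z₂, z₂', H, f₁, a1, a2, Va, Y₁, Y₂, za, za',
    Ga, Q₁, y₁, y₁', B₁, Q₂, y₂, y₂', B₂, fa, a3⟩ := hG
  obtain ⟨hGd, hGp, hGc⟩ := hΨd J F A V₀ z₀ z₀' G₀ a1
  have hv : v ≤ 1 := hva.trans ha
  obtain ⟨f1, f2⟩ := floorw hwv hv J
  obtain ⟨g1, g2⟩ := floorw (hwv.trans hva) ha J
  obtain ⟨k1, k2⟩ := floorw hva ha J
  have p0 : ∀ x : ℝ, (0 : ℝ) < 2 ^ x := fun x => Real.rpow_pos_of_pos (by norm_num) _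
  -- the difference of the labels
  obtain ⟨Φ, hΦ⟩ : ∃ Φ : V₀ × ((Y₁ × Y₂) × (V₁ × V₂)) → MvPolynomial (Option (Fin m)) ℝ,
    Φ = fun x => sbu (c r) (B₂ x.2.1.2) (B₁ x.2.1.1 - G₀ x.1) -
      sbu (c r) (H x.2.2.2) (G₁ x.2.2.1 - G₀ x.1) := ⟨_, rfl⟩
  obtain ⟨zd, hzd⟩ : ∃ zd : PtT F → V₀ × ((Y₁ × Y₂) × (V₁ × V₂)), zd = fun x =>
    (z₀ x, ((y₁ x, y₂ x), (z₁ x, z₂ x))) := ⟨_, rfl⟩
  obtain ⟨zd', hzd'⟩ : ∃ zd' : LnT F → V₀ × ((Y₁ × Y₂) × (V₁ × V₂)), zd' = fun x =>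
    (wz z₀' ⌊w * J⌋₊ ⌊a * J⌋₊ x, ((y₁' x, y₂' x), (wz z₁' ⌊v * J⌋₊ ⌊a * J⌋₊ x,
      wz z₂' ⌊v * J⌋₊ ⌊a * J⌋₊ x))) := ⟨_, rfl⟩
  have hcode : ∀ ω, zd' (slam F ⌊a * J⌋₊ ω) = (z₀' (slam F ⌊w * J⌋₊ ω),
      ((y₁' (slam F ⌊a * J⌋₊ ω), y₂' (slam F ⌊a * J⌋₊ ω)),
        (z₁' (slam F ⌊v * J⌋₊ ω), z₂' (slam F ⌊v * J⌋₊ ω)))) := by
    intro ω
    rw [hzd']
    dsimp only
    rw [wz_slam z₀' g1 g2, wz_slam z₁' k1 k2, wz_slam z₂' k1 k2]
  have hΦe : ∀ ω, Φ (zd' (slam F ⌊a * J⌋₊ ω)) = Ga (za' (slam F ⌊a * J⌋₊ ω)) -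
      G (z' (slam F ⌊v * J⌋₊ ω)) := by
    intro ω
    rw [hcode, a3.pol, a2.pol, a3.cod, a2.cod, wz_slam z₀' g1 g2, wz_slam z₀' f1 f2, hΦ]
    unfold nzG
    ring
  have hdeg : ∀ x, (Φ x).totalDegree ≤ Kd := by
    intro x
    have b1 : ∀ {D E : MvPolynomial (Option (Fin m)) ℝ}, E.totalDegree ≤ max 1 (max Ku Kb) →
        D.totalDegree ≤ max K K₁ → (sbu (c r) E D).totalDegree ≤ Kd := by
      intro D E hE hD
      refine (sbu_deg (c r) hE hD).trans ?_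
      rw [max_eq_right (le_max_left 1 (max Ku Kb)), hKd]
      exact le_max_right _ _
    rw [hΦ]
    refine (totalDegree_sub _ _).trans (max_le (b1 ?_ ?_) (b1 ?_ ?_))
    · exact (a3.l2.deg _).trans ((le_max_left Ku Kb).trans (le_max_right _ _))
    · exact (totalDegree_sub _ _).trans (max_le ((a3.l1.deg _).trans (le_max_right _ _))
        ((hGd _).trans (le_max_left _ _)))
    · exact (a2.l2.deg _).trans ((le_max_right Ku Kb).trans (le_max_right _ _))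
    · exact (totalDegree_sub _ _).trans (max_le ((a2.l1.deg _).trans (le_max_right _ _))
        ((hGd _).trans (le_max_left _ _)))
  have hdep : ∀ x, DpI ((range r).image c) (Φ x) := by
    intro x
    rw [hΦ]
    exact DpI.sub (sbu_dep (DpI.sub (a3.l1.dep _) (hGp _)) (a3.l2.dep _))
      (sbu_dep (DpI.sub (a2.l1.dep _) (hGp _)) (a2.l2.dep _))
  have hc0 : c 0 ∈ (range r).image c := mem_image_of_mem _ (mem_range.2 (by omega))
  have hsm : ∀ ω, A ω → |eval (bt F ω) (Φ (zd' (slam F ⌊a * J⌋₊ ω)))| ≤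
      1 / 2 ^ ⌊pN * J⌋₊ + 1 / 2 ^ ⌊pa * J⌋₊ := by
    intro ω hω
    have b1 := a2.lb.pos ω hω
    have b2 := a3.lb.pos ω hω
    rw [hΦe, map_sub]
    have e1 : eval (bt F ω) (Ga (za' (slam F ⌊a * J⌋₊ ω))) -
        eval (bt F ω) (G (z' (slam F ⌊v * J⌋₊ ω))) =
        (F.x ω κ - eval (bt F ω) (G (z' (slam F ⌊v * J⌋₊ ω)))) -
        (F.x ω κ - eval (bt F ω) (Ga (za' (slam F ⌊a * J⌋₊ ω)))) := by ring
    rw [e1]
    exact (abs_sub _ _).trans (add_le_add b1 b2)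
  -- the two labels of the coordinate `c 0`
  have hL1 : LbP F ((range r).image c) (c 0) KK J ⌊a * J⌋₊ ⌊(pm - σ₀ / 8) * J⌋₊ A
      (fun _ => ()) (fun _ => ()) (fun _ : Unit => X (some (c 0))) := by
    refine ⟨fun _ => (totalDegree_X _).le.trans ?_, fun _ b b' _ hb => ?_, fun _ _ => rfl,
      fun ω _ => ?_⟩
    · rw [hKK, hKd]
      exact (le_max_left _ _).trans ((le_max_left _ _).trans (le_max_right _ _))
    · rw [eval_X, eval_X]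
      exact hb _ hc0
    · rw [eval_X]
      show |F.x ω (c 0) - F.x ω (c 0)| ≤ _
      rw [sub_self, abs_zero]
      positivity
  have hL2 : LbP F ((range r).image c) (c 0) KK J ⌊a * J⌋₊ ⌊(pm - σ₀ / 8) * J⌋₊ A
      zd zd' (fun x => X (some (c 0)) - Φ x) := by
    refine ⟨fun x => (totalDegree_sub _ _).trans (max_le ((totalDegree_X _).le.trans ?_)
      ((hdeg x).trans ?_)), fun x b b' hn hb => ?_, fun ω hω => ?_, fun ω hω => ?_⟩
    · rw [hKK, hKd]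
      exact (le_max_left _ _).trans ((le_max_left _ _).trans (le_max_right _ _))
    · rw [hKK]
      exact (le_max_left _ _).trans (le_max_right _ _)
    · rw [map_sub, map_sub, eval_X, eval_X, hb _ hc0, hdep x b b' hn hb]
    · rw [hcode, hzd]
      dsimp only
      rw [hGc ω hω, a3.l1.cls ω hω, a3.l2.cls ω hω, a2.l1.cls ω hω, a2.l2.cls ω hω]
    · rw [map_sub, eval_X]
      show |F.x ω (c 0) - (F.x ω (c 0) - eval (bt F ω) (Φ (zd' (slam F ⌊a * J⌋₊ ω))))| ≤ _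
      rw [sub_sub_cancel]
      refine (hsm ω hω).trans (two_acc hm1 hm2 (by linarith) ?_)
      have e1 : pm - (pm - σ₀ / 8) = σ₀ / 8 := by ring
      rw [e1]
      exact j1
  -- the quantities
  obtain ⟨u', hu'⟩ : ∃ u' : F.Ω → ℤ, u' = fun ω => ⌊(2 : ℝ) ^ (s * J) *
    eval (bt F ω) (Φ (zd' (slam F ⌊a * J⌋₊ ω)))⌋ := ⟨_, rfl⟩
  have hoj : ∀ ω, ojet F (c 0) 0 (X (some (c 0)) - Φ (zd' (slam F ⌊a * J⌋₊ ω))) ω =
      eval (bt F ω) (Φ (zd' (slam F ⌊a * J⌋₊ ω))) := by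
    intro ω
    have e1 := hgt_eq F (c 0) zd' ⌊a * J⌋₊ (fun x => X (some (c 0)) - Φ x) ω
    refine e1.trans ?_
    rw [map_sub, eval_X]
    show F.x ω (c 0) - (F.x ω (c 0) - eval (bt F ω) (Φ (zd' (slam F ⌊a * J⌋₊ ω)))) = _
    ring
  have hoj0 : ∀ ω, ojet F (c 0) 0 (X (some (c 0))) ω = 0 := by
    intro ω
    have e1 := hgt_eq F (c 0) (fun _ : LnT F => ()) ⌊a * J⌋₊ (fun _ : Unit => X (some (c 0))) ω
    refine e1.trans ?_
    rw [eval_X]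
    exact sub_self _
  have hexp1 : (1 : ℝ) ≤ Real.exp (KK * J) := Real.one_le_exp (by positivity)
  have hKKM : (M : ℝ) ≤ KK := by
    rw [hKK]
    exact_mod_cast (le_max_right Kd M).trans (le_max_right K₀ _)
  have hQ1 : (qJet m ((range r).image c) (c 0) 0 a pm s).P KK (σ₀ / 8) J F A (fun _ => 0) := by
    refine ⟨?_, Unit, _, _, _, hL1, fun ω _ => ?_⟩
    · have h5 : (cnt F.p (fun _ : F.Ω => (0 : ℤ)) A : ℝ) ≤ 2 * 0 + 1 :=
        cnt_le_of_abs le_rfl fun ω _ => by norm_num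
      linarith
    · rw [hoj0, mul_zero, Int.floor_zero]
  have hQ2 : (qJet m ((range r).image c) (c 0) 0 a pm s).P KK (σ₀ / 8) J F A u' := by
    refine ⟨?_, _, _, _, _, hL2, fun ω _ => ?_⟩
    · have h6 : (cnt F.p u' A : ℝ) ≤ 2 * (2 ^ (|s| * J) * 2 + 1) + 1 := by
        refine cnt_le_of_abs (by positivity) fun ω hω => ?_
        have b1 := hsm ω hω
        have b2 : 1 / (2 : ℝ) ^ ⌊pN * J⌋₊ ≤ 1 := by
          rw [div_le_one (by positivity)]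
          exact one_le_pow₀ (by norm_num)
        have b3 : 1 / (2 : ℝ) ^ ⌊pa * J⌋₊ ≤ 1 := by
          rw [div_le_one (by positivity)]
          exact one_le_pow₀ (by norm_num)
        have b4 : (2 : ℝ) ^ (s * J) ≤ 2 ^ (|s| * J) := p2_mono (le_abs_self s)
        have b5 : |(2 : ℝ) ^ (s * J) * eval (bt F ω) (Φ (zd' (slam F ⌊a * J⌋₊ ω)))| ≤
            2 ^ (|s| * J) * 2 := by
          rw [abs_mul, abs_of_pos (p0 _)]
          exact mul_le_mul b4 (by linarith) (abs_nonneg _) (p0 _).le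
        rw [hu']
        have c1 := Int.floor_le ((2 : ℝ) ^ (s * J) *
          eval (bt F ω) (Φ (zd' (slam F ⌊a * J⌋₊ ω))))
        have c2 := Int.lt_floor_add_one ((2 : ℝ) ^ (s * J) *
          eval (bt F ω) (Φ (zd' (slam F ⌊a * J⌋₊ ω))))
        rw [abs_le] at b5 ⊢
        constructor <;> linarith [b5.1, b5.2]
      refine h6.trans ?_
      have d1 : (1 : ℝ) ≤ 2 ^ (|s| * J) := Real.one_le_rpow (by norm_num) (by positivity)
      have d2 : Real.log 7 ≤ 3 := by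
        have : Real.log 7 ≤ Real.log 8 := Real.log_le_log (by norm_num) (by norm_num)
        have e8 : Real.log 8 = 3 * Real.log 2 := by
          rw [show (8 : ℝ) = 2 ^ (3 : ℕ) by norm_num, Real.log_pow]
          norm_num
        have := Real.log_two_lt_d9
        linarith
      calc 2 * ((2 : ℝ) ^ (|s| * J) * 2 + 1) + 1 ≤ 7 * 2 ^ (|s| * J) := by linarith
        _ = Real.exp (Real.log 7 + |s| * J * Real.log 2) := by
            rw [Real.exp_add, Real.exp_log (by norm_num), exp_p2]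
        _ ≤ Real.exp (KK * J) := by
            refine Real.exp_le_exp.2 ?_
            have d3 : |s| * J * Real.log 2 ≤ |s| * J * 1 := by
              refine mul_le_mul_of_nonneg_left ?_ (by positivity)
              have := Real.log_two_lt_d9
              linarith
            have d4 : (|s| + 4) * J ≤ KK * J := mul_le_mul_of_nonneg_right (hMs.trans hKKM) hJ0
            linarith
    · rw [hu']
      dsimp only
      rw [hoj]
  have hQ0 : (qJets m c b₀ r 0 wv pv Nv).P KK (σ₀ / 8) J F A uu :=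
    (qJets m c b₀ r 0 wv pv Nv).mono (by rw [hKK]; exact le_max_left _ _) le_rfl huu
  obtain ⟨V₃, z₃, hz₃, h5⟩ := H1 (fun ω => (uu ω, 0)) u' ⟨hQ0, hQ1⟩ hQ2
  refine ⟨V₃, z₃, hz₃, ?_⟩
  obtain ⟨X', hX'⟩ : ∃ X' : F.Ω → ℤ, X' = fun ω =>
    ⌊(2 : ℝ) ^ (s * J) * ojet F κ 0 (G (z' (slam F ⌊v * J⌋₊ ω))) ω⌋ := ⟨_, rfl⟩
  rw [← hX']
  have s1 := CH_le_add hq.nonneg X' u' (fun ω => (uu ω, (z₃ ω, y J F ω)))
  have s2 : CH (Pool.Agent.H49.Ent.cond F.p A True) u' (fun ω => (uu ω, (z₃ ω, y J F ω))) ≤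
      δ / 2 * J := by
    refine le_trans (CH_mono_cond hq.nonneg fun ω ω' _ _ e => ?_) h5
    simp only [Prod.mk.injEq] at e ⊢
    exact ⟨⟨e.1, trivial⟩, e.2⟩
  have s3 : CH (Pool.Agent.H49.Ent.cond F.p A True) X'
      (fun ω => (u' ω, (uu ω, (z₃ ω, y J F ω)))) ≤ Real.log 13 := by
    have e9 : (13 : ℝ) = 2 * ((5 + 1 : ℕ) : ℝ) + 1 := by norm_num
    have near : ∀ ω, A ω → |(2 : ℝ) ^ (s * J) * ojet F κ 0 (G (z' (slam F ⌊v * J⌋₊ ω))) ω -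
        2 ^ (s * J) * eval (bt F ω) (Φ (zd' (slam F ⌊a * J⌋₊ ω)))| ≤ 2 := by
      intro ω hω
      have b1 := a3.lb.pos ω hω
      have e1 : ojet F κ 0 (G (z' (slam F ⌊v * J⌋₊ ω))) ω =
          F.x ω κ - eval (bt F ω) (G (z' (slam F ⌊v * J⌋₊ ω))) := hgt_eq F κ z' _ G ω
      have e2 : ojet F κ 0 (G (z' (slam F ⌊v * J⌋₊ ω))) ω -
          eval (bt F ω) (Φ (zd' (slam F ⌊a * J⌋₊ ω))) =
          F.x ω κ - eval (bt F ω) (Ga (za' (slam F ⌊a * J⌋₊ ω))) := by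
        rw [e1, hΦe, map_sub]
        ring
      rw [← mul_sub, e2, abs_mul, abs_of_pos (p0 _)]
      calc (2 : ℝ) ^ (s * J) * |F.x ω κ - eval (bt F ω) (Ga (za' (slam F ⌊a * J⌋₊ ω)))| ≤
            2 ^ (s * J) * (1 / 2 ^ ⌊pa * J⌋₊) := mul_le_mul_of_nonneg_left b1 (p0 _).le
        _ ≤ 2 ^ (s * J) * (2 * 2 ^ (-(pa * J))) :=
            mul_le_mul_of_nonneg_left (ip2_le _) (p0 _).le
        _ = 2 * 2 ^ (s * J + -(pa * J)) := by
            rw [Real.rpow_add (by norm_num)]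
            ring
        _ ≤ 2 * 1 := by
            refine mul_le_mul_of_nonneg_left ?_ (by norm_num)
            refine Real.rpow_le_one_of_one_le_of_nonpos (by norm_num) ?_
            have := mul_le_mul_of_nonneg_right hs hJ0
            linarith
        _ = 2 := mul_one 2
    rw [e9]
    refine CH_pair hq _ _ fun ω ω' hω hω' e => ?_
    have n1 := near ω (of_cond_pos hω)
    have n2 := near ω' (of_cond_pos hω')
    have e3 := (Prod.ext_iff.mp e).1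
    rw [hu'] at e3
    dsimp only at e3
    rw [hX']
    dsimp only
    refine floor_sub_le ?_
    push_cast
    have c1 := Int.floor_le ((2 : ℝ) ^ (s * J) *
      eval (bt F ω) (Φ (zd' (slam F ⌊a * J⌋₊ ω))))
    have c2 := Int.lt_floor_add_one ((2 : ℝ) ^ (s * J) *
      eval (bt F ω) (Φ (zd' (slam F ⌊a * J⌋₊ ω))))
    have c3 := Int.floor_le ((2 : ℝ) ^ (s * J) *
      eval (bt F ω') (Φ (zd' (slam F ⌊a * J⌋₊ ω'))))
    have c4 := Int.lt_floor_add_one ((2 : ℝ) ^ (s * J) *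
      eval (bt F ω') (Φ (zd' (slam F ⌊a * J⌋₊ ω'))))
    rw [e3] at c1 c2
    rw [abs_le] at n1 n2 ⊢
    constructor <;> linarith [n1.1, n1.2, n2.1, n2.2]
  linarith

end Pool.PSQ78
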